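import Pool.Agent.H.MP_f2fc00_lc.C

namespace Pool.Agent.Results.MP_f2fc00_lc.Hard

open Pool.Agent.Lib.CX Pool.Agent.H.MP_f2fc00_lc

theorem result : (NPHard fun a : Gr => AT a.G ≤ 3) ∧
    ((∃ f : Gr → ℕ, PT f ∧ ∀ a, f a = AT a.G) → ∀ A : List Bool → Prop, InNP A → InP A) :=
  ⟨hard, noPoly⟩

end Pool.Agent.Results.MP_f2fc00_lc.Hard
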